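import Mathlib
import Pool.Agent.Y666.SP.Stm

set_option autoImplicit false

/-!
# Project SP, the statements GLB and SYS
-/

namespace Pool.Agent.Y405.SP

open Pool.Agent.Y666.SP

variable {α : Type} [PartialOrder α]

lemma gll_sub {F G : Germ α} (h : gll F G) : G.carrier ⊆ F.carrier := by
  obtain ⟨p, hp, hq⟩ := h
  exact fun q hqG => F.up p hp q (hq q hqG).le

theorem t_GLB : S_GLB := by
  intro α _ A hA hCh _
  let m : Germ α :=
    { carrier := {z | ∃ a ∈ A, z ∈ a.carrier}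
      nonempty := by
        obtain ⟨a, ha⟩ := hA
        obtain ⟨x, hx⟩ := a.nonempty
        exact ⟨x, a, ha, hx⟩
      up := by
        rintro x ⟨a, ha, hx⟩ y hxy
        exact ⟨a, ha, a.up x hx y hxy⟩
      dir := by
        rintro x ⟨a, ha, hx⟩ y ⟨b, hb, hy⟩
        have h : a.carrier ⊆ b.carrier ∨ b.carrier ⊆ a.carrier := by
          rcases hCh a ha b hb with h | h | h
          · exact Or.inl (by rw [h])
          · exact Or.inr (gll_sub h)
          · exact Or.inl (gll_sub h)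
        rcases h with h | h
        · obtain ⟨z, hz, hzx, hzy⟩ := b.dir x (h hx) y hy
          exact ⟨z, ⟨b, hb, hz⟩, hzx, hzy⟩
        · obtain ⟨z, hz, hzx, hzy⟩ := a.dir x hx y (h hy)
          exact ⟨z, ⟨a, ha, hz⟩, hzx, hzy⟩ }
  refine ⟨m, fun z => Iff.rfl, fun a ha z hz => ⟨a, ha, hz⟩, ?_, ?_⟩
  · rintro x hx z ⟨a, ha, hz⟩
    exact hx a ha hz
  · rintro x ⟨p, ⟨a, ha, hp⟩, hq⟩
    exact ⟨a, ha, p, hp, hq⟩

theorem t_SYS (h1 : S_FINN) : S_SYS := by
  intro α _ w hw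
  refine ⟨?_, ?_, ?_, h1 α w hw, ?_⟩
  · intro a b h
    refine lt_iff_le_not_ge.mpr ⟨gll_sub h, fun h' => ?_⟩
    obtain ⟨p, hp, hq⟩ := h
    exact lt_irrefl p (hq p (h' hp))
  · rintro a b c hab ⟨p, hp, hq⟩
    exact ⟨p, hab hp, hq⟩
  · rintro a b c ⟨p, hp, hq⟩ hbc
    exact ⟨p, hp, fun q hqc => hq q (hbc hqc)⟩
  · intro A hA hCh hA2
    obtain ⟨m, -, h2, h3, h4⟩ := t_GLB α A hA hCh hA2
    exact ⟨m, h2, h3, h4⟩

end Pool.Agent.Y405.SP
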