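import Mathlib
import Pool.Agent.Y666.SP.Stm2

set_option autoImplicit false

/-!
# Project SP, part 2: the statements KAC, KGLB and KSYS
-/

namespace Pool.Agent.Y405.SP.Kap

open Pool.Agent.Y666.SP

variable {α : Type} [PartialOrder α] {κ : Cardinal.{0}} {E : Set α}

lemma kll_sub {F G : KGerm κ E} (h : kll F G) : G.carrier ⊆ F.carrier := by
  obtain ⟨p, hp, hq⟩ := h
  exact fun q hqG => F.up p hp q (G.sub hqG) (hq q hqG).le

/-- finitely many elements of a germ have a lower bound in the germ -/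
theorem low (F : KGerm κ E) (z : KGerm κ E → α) (T : Finset (KGerm κ E)) :
    (∀ G ∈ T, z G ∈ F.carrier) → ∀ b ∈ F.carrier,
      ∃ y ∈ F.carrier, y ≤ b ∧ ∀ G ∈ T, y ≤ z G := by
  classical
  induction T using Finset.induction_on with
  | empty => intro _ b hb; exact ⟨b, hb, le_rfl, by simp⟩
  | insert G T hG ih =>
    intro hz b hb
    obtain ⟨y, hy, hyb, hyT⟩ := ih (fun H hH => hz H (Finset.mem_insert_of_mem hH)) b hb
    obtain ⟨y', hy', h1, h2⟩ := F.dir y hy (z G) (hz G (Finset.mem_insert_self _ _))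
    refine ⟨y', hy', h1.trans hyb, fun H hH => ?_⟩
    rcases Finset.mem_insert.1 hH with rfl | hH
    · exact h2
    · exact h1.trans (hyT H hH)

/-- germs which are pairwise not `kll`-related have an antichain of representatives -/
theorem key (n : ℕ) : ∀ T : Finset (KGerm κ E), T.card = n →
    (∀ F ∈ T, ∀ G ∈ T, ¬ kll F G) →
    ∀ b : KGerm κ E → α, (∀ F ∈ T, b F ∈ F.carrier) →
    ∃ y : KGerm κ E → α, (∀ F ∈ T, y F ∈ F.carrier ∧ y F ≤ b F) ∧
      ∀ F ∈ T, ∀ G ∈ T, F ≠ G → ¬ y F ≤ y G := by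
  classical
  induction n with
  | zero =>
    intro T hT _ b _
    rw [Finset.card_eq_zero] at hT
    subst hT
    exact ⟨b, by simp, by simp⟩
  | succ n ih =>
    intro T hT hg b hb
    have hne : T.Nonempty := by
      rw [← Finset.card_pos]
      omega
    obtain ⟨F, hF⟩ := T.exists_minimal hne
    have hFT : F ∈ T := hF.prop
    have hα : Nonempty α := ⟨b F⟩
    have h1 : ∀ G ∈ T.erase F, ∃ z ∈ F.carrier, z ∉ G.carrier := by
      intro G hG
      rw [Finset.mem_erase] at hG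
      by_contra hcon
      push Not at hcon
      exact hG.1 (le_antisymm (show G ≤ F from hcon) (hF.le_of_le hG.2 hcon))
    choose! z hz1 hz2 using h1
    obtain ⟨yF, hyF, hyb, hyz⟩ := low F z (T.erase F) hz1 (b F) (hb F hFT)
    have h2 : ∀ G ∈ T.erase F, yF ∉ G.carrier := fun G hG h =>
      hz2 G hG (G.up yF h _ (F.sub (hz1 G hG)) (hyz G hG))
    have h3 : ∀ G ∈ T.erase F, ∃ b' ∈ G.carrier, b' ≤ b G ∧ ¬ yF ≤ b' := by
      intro G hG
      have hGT := Finset.mem_of_mem_erase hG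
      have := hg F hFT G hGT
      rw [kll] at this
      push Not at this
      obtain ⟨q, hq, hyq⟩ := this yF hyF
      obtain ⟨b', hb', e1, e2⟩ := G.dir (b G) (hb G hGT) q hq
      refine ⟨b', hb', e1, fun h => ?_⟩
      have e3 : yF ≤ q := h.trans e2
      rcases eq_or_lt_of_le e3 with e4 | e4
      · exact h2 G hG (e4 ▸ hq)
      · exact hyq e4
    choose! b' hb1 hb2 hb3 using h3
    obtain ⟨y, hy1, hy2⟩ := ih (T.erase F) (by rw [Finset.card_erase_of_mem hFT]; omega)
      (fun G hG H hH => hg G (Finset.mem_of_mem_erase hG) H (Finset.mem_of_mem_erase hH)) b' hb1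
    refine ⟨fun G => if G = F then yF else y G, fun G hG => ?_, fun G hG H hH hne => ?_⟩
    · by_cases e : G = F
      · subst e
        simpa using ⟨hyF, hyb⟩
      · have hG' := Finset.mem_erase.2 ⟨e, hG⟩
        simpa [e] using ⟨(hy1 G hG').1, (hy1 G hG').2.trans (hb2 G hG')⟩
    · by_cases e : G = F
      · subst e
        have hH' : H ∈ T.erase G := Finset.mem_erase.2 ⟨Ne.symm hne, hH⟩
        simp only [if_true, if_neg (Ne.symm hne)]
        exact fun h => hb3 H hH' (h.trans (hy1 H hH').2)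
      · have hG' : G ∈ T.erase F := Finset.mem_erase.2 ⟨e, hG⟩
        by_cases e' : H = F
        · subst e'
          simp only [if_true, if_neg e]
          exact fun h => h2 G hG' (G.up _ (hy1 G hG').1 _ (H.sub hyF) h)
        · simp only [if_neg e, if_neg e']
          exact hy2 G hG' H (Finset.mem_erase.2 ⟨e', hH⟩) hne

theorem t_KAC : S_KAC := by
  classical
  intro α _ w hw κ E T hg
  obtain ⟨y, -, hy⟩ := key T.card T rfl hg (fun F => F.nonempty.some) fun F _ => F.nonempty.some_mem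
  have hinj : Set.InjOn y T := by
    intro F hF G hG h
    by_contra hne
    exact hy F hF G hG hne h.le
  have hc := hw (T.image y) (by
    intro a ha b hb hab h
    simp only [Finset.coe_image, Set.mem_image, Finset.mem_coe] at ha hb
    obtain ⟨F, hF, rfl⟩ := ha
    obtain ⟨G, hG, rfl⟩ := hb
    exact hy F hF G hG (fun e => hab (by rw [e])) h)
  rwa [Finset.card_image_of_injOn hinj] at hc

theorem t_KGLB : S_KGLB := by
  intro α _ κ E A hA hCh _
  have hcomp : ∀ a ∈ A, ∀ b ∈ A, a.carrier ⊆ b.carrier ∨ b.carrier ⊆ a.carrier := by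
    intro a ha b hb
    rcases hCh a ha b hb with h | h | h
    · exact Or.inl (by rw [h])
    · exact Or.inr (kll_sub h)
    · exact Or.inl (kll_sub h)
  let m : KGerm κ E :=
    { carrier := {z | ∃ a ∈ A, z ∈ a.carrier}
      sub := by
        rintro z ⟨a, _, hz⟩
        exact a.sub hz
      nonempty := by
        obtain ⟨a, ha⟩ := hA
        obtain ⟨x, hx⟩ := a.nonempty
        exact ⟨x, a, ha, hx⟩
      up := by
        rintro x ⟨a, ha, hx⟩ y hyE hxy
        exact ⟨a, ha, a.up x hx y hyE hxy⟩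
      dir := by
        rintro x ⟨a, ha, hx⟩ y ⟨b, hb, hy⟩
        rcases hcomp a ha b hb with h | h
        · obtain ⟨z, hz, hzx, hzy⟩ := b.dir x (h hx) y hy
          exact ⟨z, ⟨b, hb, hz⟩, hzx, hzy⟩
        · obtain ⟨z, hz, hzx, hzy⟩ := a.dir x hx y (h hy)
          exact ⟨z, ⟨a, ha, hz⟩, hzx, hzy⟩
      large := by
        rintro x ⟨a, ha, hx⟩
        refine (a.large x hx).trans (Cardinal.mk_le_mk_of_subset ?_)
        rintro y ⟨hy1, hy2⟩
        exact ⟨⟨a, ha, hy1⟩, hy2⟩ }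
  refine ⟨m, fun z => Iff.rfl, fun a ha z hz => ⟨a, ha, hz⟩, ?_, ?_⟩
  · rintro x hx z ⟨a, ha, hz⟩
    exact hx a ha hz
  · rintro x ⟨p, ⟨a, ha, hp⟩, hq⟩
    exact ⟨a, ha, p, hp, hq⟩

theorem t_KSYS : S_KSYS := by
  intro α _ w hw κ E
  refine ⟨?_, ?_, ?_, ?_, ?_⟩
  · intro a b h
    refine lt_iff_le_not_ge.mpr ⟨kll_sub h, fun h' => ?_⟩
    obtain ⟨p, hp, hq⟩ := h
    exact lt_irrefl p (hq p (h' hp))
  · rintro a b c hab ⟨p, hp, hq⟩
    exact ⟨p, hab hp, hq⟩
  · rintro a b c ⟨p, hp, hq⟩ hbc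
    exact ⟨p, hp, fun q hqc => hq q (hbc hqc)⟩
  · intro x
    by_contra hinf
    obtain ⟨T, hT, hcard⟩ := Set.Infinite.exists_subset_card_eq hinf (w + 1)
    have hg : ∀ F ∈ T, ∀ G ∈ T, ¬ kll F G := by
      rintro F hF G hG ⟨p, hp, hq⟩
      exact (hT hG).2 ⟨p, (hT hF).1 hp, hq⟩
    have := t_KAC α w hw κ E T hg
    omega
  · intro A hA hCh hA2
    obtain ⟨m, -, h2, h3, h4⟩ := t_KGLB α κ E A hA hCh hA2
    exact ⟨m, h2, h3, h4⟩

end Pool.Agent.Y405.SP.Kap
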